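import Pool.Agent.H97.KL.Fin

/-! The quotient ring `K[X] / (X_j^p - x_j^p)`. -/

open MvPolynomial H50.DO
open scoped Polynomial

set_option linter.unusedSectionVars false

namespace Pool.Agent.H97.KL

section quot

variable {ν : Type} [Fintype ν] [DecidableEq ν] {k : Type} [Field k] (p : ℕ)

/-- the ideal of the `X_j^p - x_j^p` -/
noncomputable def Ix (x : ν → k[X]) : Ideal (MvPolynomial ν (RatFunc k)) :=
  Ideal.span (Set.range fun j => X j ^ p - C (algebraMap k[X] (RatFunc k) (x j) ^ p))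

lemma pderiv_mem_Ix [Fact p.Prime] [CharP k p] (x : ν → k[X]) (i : ν)
    (a : MvPolynomial ν (RatFunc k)) (ha : a ∈ Ix p x) : pderiv i a ∈ Ix p x := by
  have hK : CharP (RatFunc k) p :=
    charP_of_injective_algebraMap (FaithfulSMul.algebraMap_injective k[X] (RatFunc k)) p
  unfold Ix at ha
  induction ha using Submodule.span_induction with
  | mem a ha =>
    obtain ⟨j, rfl⟩ := ha
    have : pderiv i (X j ^ p - C (algebraMap k[X] (RatFunc k) (x j) ^ p)) = 0 := by
      rw [map_sub, pderiv_C, Derivation.leibniz_pow, sub_zero, nsmul_eq_mul, CharP.cast_eq_zero,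
        zero_mul]
    simp only [this]
    exact zero_mem _
  | zero => rw [map_zero]; exact zero_mem _
  | add a b _ _ ha hb => rw [map_add]; exact add_mem ha hb
  | smul r a ha' ha =>
    rw [smul_eq_mul, Derivation.leibniz, smul_eq_mul, smul_eq_mul]
    exact add_mem (Ideal.mul_mem_left _ _ ha) (Ideal.mul_mem_right _ _ ha')

lemma Ix_ne_top (x : ν → k[X]) : Ix p x ≠ ⊤ := by
  have h1 : Ix p x ≤ RingHom.ker (eval (fun j => algebraMap k[X] (RatFunc k) (x j))) := by
    refine Ideal.span_le.2 ?_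
    rintro _ ⟨j, rfl⟩
    rw [SetLike.mem_coe, RingHom.mem_ker, map_sub, map_pow, eval_X, eval_C, sub_self]
  intro h2
  rw [h2, top_le_iff] at h1
  exact RingHom.ker_ne_top _ h1

lemma finite_quot {E : Type} [CommRing E] [Algebra (RatFunc k) E]
    (π : MvPolynomial ν (RatFunc k) →ₐ[RatFunc k] E) (hπ : Function.Surjective π)
    [Fact p.Prime] (x : ν → k[X])
    (hX : ∀ j, π (X j) ^ p = algebraMap (RatFunc k) E (algebraMap k[X] (RatFunc k) (x j) ^ p)) :
    FiniteDimensional (RatFunc k) E := by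
  have hp : 0 < p := (Fact.out : p.Prime).pos
  have h1 : (Subalgebra.toSubmodule
      (Algebra.adjoin (RatFunc k) (Set.range fun j => π (X j)))).FG := by
    refine fg_adjoin_of_finite (Set.finite_range _) ?_
    rintro _ ⟨j, rfl⟩
    refine IsIntegral.of_pow hp ?_
    change IsIntegral (RatFunc k) (π (X j) ^ p)
    rw [hX]
    exact isIntegral_algebraMap
  have h2 : Algebra.adjoin (RatFunc k) (Set.range fun j => π (X j)) = ⊤ := by
    have h3 : (Set.range fun j => π (X j)) = π '' Set.range (X : ν → MvPolynomial ν (RatFunc k)) := by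
      rw [← Set.range_comp]
      rfl
    rw [h3, ← AlgHom.map_adjoin, MvPolynomial.adjoin_range_X, Algebra.map_top]
    exact AlgHom.range_eq_top π |>.2 hπ
  rw [h2, Algebra.top_toSubmodule] at h1
  exact ⟨h1⟩

theorem lattice_lemma' (k : Type) [Field k] [Infinite k] (p : ℕ)
    [Fact p.Prime] [CharP k p]
    (A₀ : Subalgebra (RatFunc k) (MvPolynomial ν (RatFunc k))) (h : MvPolynomial ν (RatFunc k))
    (E E₁ E₂ : WExp ν k) (n : ℕ)
    (b b' : MvPolynomial ν k) (F : MvPolynomial ν (RatFunc k)) (hF : F ∈ A₀)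
    (hb : map (RatFunc.C : k →+* RatFunc k) b ∈ A₀) (hb' : map (RatFunc.C : k →+* RatFunc k) b' ∈ A₀)
    (h1 : ∀ E' ∈ [E, E₁, E₂], ∀ a ∈ A₀, ∀ l,
      (WExp.evT h (WExp.bc (RatFunc.C : k →+* RatFunc k) E')) (sgl a) l ∈ A₀)
    (h2 : ∀ a ∈ A₀, ∀ l, (WExp.evT h (WExp.bc (RatFunc.C : k →+* RatFunc k) E)) (sgl a) l =
      map (RatFunc.C : k →+* RatFunc k) b *
        (WExp.evT h (WExp.bc (RatFunc.C : k →+* RatFunc k) E₁)) (sgl a) l +
      map (RatFunc.C : k →+* RatFunc k) b' *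
        (WExp.evT h (WExp.bc (RatFunc.C : k →+* RatFunc k) E₂)) (sgl a) l)
    (h3 : ∀ a ∈ A₀, ∀ l, n < l → (WExp.evT h (WExp.bc (RatFunc.C : k →+* RatFunc k) E)) (sgl a) l = 0)
    (h4 : ∀ a ∈ A₀, (WExp.evT h (WExp.bc (RatFunc.C : k →+* RatFunc k) E)) (sgl a) n = F * a)
    (x η : ν → Polynomial k)
    (hη : ∀ i, eval (fun j => algebraMap (Polynomial k) (RatFunc k) (x j)) (pderiv i h) =
      algebraMap (Polynomial k) (RatFunc k) (η i))
    (hb0 : eval (fun j => (x j).eval 0) b = 0) (hb0' : eval (fun j => (x j).eval 0) b' = 0)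
    (φ : Polynomial k)
    (hφ : eval (fun j => algebraMap (Polynomial k) (RatFunc k) (x j)) F =
      algebraMap (Polynomial k) (RatFunc k) φ) :
    φ.eval 0 = 0 := by
  have hnt : Nontrivial (MvPolynomial ν (RatFunc k) ⧸ Ix p x) :=
    Ideal.Quotient.nontrivial_iff.2 (Ix_ne_top p x)
  have hπ : Function.Surjective (Ideal.Quotient.mkₐ (RatFunc k) (Ix p x)) :=
    Ideal.Quotient.mkₐ_surjective _ _
  have hX : ∀ j, Ideal.Quotient.mkₐ (RatFunc k) (Ix p x) (X j) ^ p =
      algebraMap (RatFunc k) _ (algebraMap k[X] (RatFunc k) (x j) ^ p) := by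
    intro j
    rw [← map_pow, ← AlgHom.commutes (Ideal.Quotient.mkₐ (RatFunc k) (Ix p x)), ← sub_eq_zero,
      ← map_sub]
    rw [Ideal.Quotient.mkₐ_eq_mk, Ideal.Quotient.eq_zero_iff_mem]
    exact Ideal.subset_span ⟨j, rfl⟩
  have hd : ∀ i a, Ideal.Quotient.mkₐ (RatFunc k) (Ix p x) a = 0 →
      Ideal.Quotient.mkₐ (RatFunc k) (Ix p x) (pderiv i a) = 0 := by
    intro i a ha
    rw [Ideal.Quotient.mkₐ_eq_mk, Ideal.Quotient.eq_zero_iff_mem] at ha ⊢
    exact pderiv_mem_Ix p x i a ha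
  have hfd := finite_quot p (Ideal.Quotient.mkₐ (RatFunc k) (Ix p x)) hπ x hX
  exact main_lat (Ideal.Quotient.mkₐ (RatFunc k) (Ix p x)) hπ A₀ p h E E₁ E₂ n b b' F hF hb hb'
    h1 h2 h3 h4 x η hX hd hη hb0 hb0' φ hφ

end quot

end Pool.Agent.H97.KL
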