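import Mathlib

/-! Determinants of operators preserving a lattice over `k[t]`. -/

open Polynomial

namespace Pool.Agent.H97.KL

lemma exists_annih {A : Type*} [Ring A] [Nontrivial A] (x y : A) (hxy : Commute x y) (m : ℕ)
    (hx : x ^ m = 0) (hy : y ^ m = 0) : ∃ N : A, N ≠ 0 ∧ N * x = 0 ∧ N * y = 0 := by
  classical
  have hex : ∃ a, x ^ a = 0 := ⟨m, hx⟩
  have ha := Nat.find_spec hex
  have ha0 : Nat.find hex ≠ 0 := by
    intro h
    rw [h, pow_zero] at ha
    exact one_ne_zero ha
  obtain ⟨a, haa⟩ := Nat.exists_eq_succ_of_ne_zero ha0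
  have hz : x ^ a ≠ 0 := Nat.find_min hex (by omega)
  have hzx : x ^ a * x = 0 := by rw [← pow_succ]; rw [haa] at ha; exact ha
  have hex2 : ∃ b, x ^ a * y ^ b = 0 := ⟨m, by rw [hy, mul_zero]⟩
  have hb := Nat.find_spec hex2
  have hb0 : Nat.find hex2 ≠ 0 := by
    intro h
    rw [h, pow_zero, mul_one] at hb
    exact hz hb
  obtain ⟨b, hbb⟩ := Nat.exists_eq_succ_of_ne_zero hb0
  refine ⟨x ^ a * y ^ b, Nat.find_min hex2 (by omega), ?_, ?_⟩
  · have : y ^ b * x = x * y ^ b := (hxy.pow_right b).eq.symm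
    rw [mul_assoc, this, ← mul_assoc, hzx, zero_mul]
  · rw [mul_assoc, ← pow_succ]
    rw [hbb] at hb
    exact hb

section A

variable {k : Type} [Field k]

/-- the operator induced on a lattice -/
noncomputable def rL {V : Type} [AddCommGroup V] [Module (RatFunc k) V] [Module k[X] V]
    [IsScalarTower k[X] (RatFunc k) V] (L : Submodule k[X] V) (f : Module.End (RatFunc k) V)
    (hf : ∀ v ∈ L, f v ∈ L) : Module.End k[X] L :=
  (f.restrictScalars k[X]).restrict hf

theorem det_eval_zero {V : Type} [AddCommGroup V] [Module (RatFunc k) V] [Module k[X] V]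
    [IsScalarTower k[X] (RatFunc k) V] [Nontrivial V]
    (L : Submodule k[X] V) (hL : L.FG) (hs : ∀ v : V, ∃ q : k[X], q ≠ 0 ∧ q • v ∈ L)
    (β β' u1 u2 u : Module.End (RatFunc k) V)
    (hβ : ∀ v ∈ L, β v ∈ L) (hβ' : ∀ v ∈ L, β' v ∈ L) (hu1 : ∀ v ∈ L, u1 v ∈ L)
    (hu2 : ∀ v ∈ L, u2 v ∈ L) (hu : u = β * u1 + β' * u2) (hcomm : Commute β β') (m : ℕ)
    (c c' : k[X]) (hc : c.eval 0 = 0) (hc' : c'.eval 0 = 0)
    (hβm : ∀ v, (β ^ m) v = c • v) (hβm' : ∀ v, (β' ^ m) v = c' • v) :
    ∃ D : k[X], D.eval 0 = 0 ∧ LinearMap.det u = algebraMap k[X] (RatFunc k) D := by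
  classical
  have huL : ∀ v ∈ L, u v ∈ L := by
    intro v hv
    rw [hu]
    exact L.add_mem (hβ _ (hu1 _ hv)) (hβ' _ (hu2 _ hv))
  have hfin : Module.Finite k[X] L := Module.Finite.iff_fg.mpr hL
  have hinj : ∀ (q : k[X]) (v : V), q • v = algebraMap k[X] (RatFunc k) q • v := by
    intro q v
    rw [algebraMap_smul]
  have htf : Module.IsTorsionFree k[X] V := by
    have : Module.IsTorsionFree (RatFunc k) V := inferInstance
    exact Module.IsTorsionFree.trans (RatFunc k)
  have htfL : Module.IsTorsionFree k[X] L := inferInstance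
  have hfree : Module.Free k[X] L := inferInstance
  let b := Module.Free.chooseBasis k[X] L
  let ι := Module.Free.ChooseBasisIndex k[X] L
  have hli : LinearIndependent k[X] (fun i => (b i : V)) :=
    b.linearIndependent.map' L.subtype (Submodule.ker_subtype L)
  have hliK : LinearIndependent (RatFunc k) (fun i => (b i : V)) :=
    (LinearIndependent.iff_fractionRing k[X] (RatFunc k)).mp hli
  have hsum : ∀ w : L, (w : V) = ∑ i, algebraMap k[X] (RatFunc k) (b.repr w i) • (b i : V) := by
    intro w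
    conv_lhs => rw [← b.sum_repr w]
    rw [Submodule.coe_sum]
    refine Finset.sum_congr rfl (fun i _ => ?_)
    rw [Submodule.coe_smul, hinj]
  have hsp : ⊤ ≤ Submodule.span (RatFunc k) (Set.range fun i => (b i : V)) := by
    intro v _
    obtain ⟨q, hq, hqv⟩ := hs v
    have hq' : algebraMap k[X] (RatFunc k) q ≠ 0 := by
      intro h
      exact hq ((IsFractionRing.injective k[X] (RatFunc k)) (by rw [h, map_zero]))
    have h1 : v = (algebraMap k[X] (RatFunc k) q)⁻¹ • (q • v) := by
      rw [hinj, smul_smul, inv_mul_cancel₀ hq', one_smul]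
    rw [h1]
    refine Submodule.smul_mem _ _ ?_
    rw [show q • v = ((⟨q • v, hqv⟩ : L) : V) from rfl, hsum ⟨q • v, hqv⟩]
    exact Submodule.sum_mem _ (fun i _ => Submodule.smul_mem _ _ (Submodule.subset_span ⟨i, rfl⟩))
  let bV : Module.Basis ι (RatFunc k) V := Module.Basis.mk hliK hsp
  have hbV : ∀ i, bV i = (b i : V) := fun i => Module.Basis.mk_apply hliK hsp i
  have hmat : LinearMap.toMatrix bV bV u =
      (LinearMap.toMatrix b b (rL L u huL)).map (algebraMap k[X] (RatFunc k)) := by
    ext i j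
    rw [LinearMap.toMatrix_apply, Matrix.map_apply, LinearMap.toMatrix_apply, hbV]
    have h1 : u (b j : V) = ((rL L u huL (b j) : L) : V) := rfl
    rw [h1, hsum (rL L u huL (b j))]
    rw [map_sum, Finsupp.finsetSum_apply]
    rw [Finset.sum_eq_single i]
    · rw [map_smul, ← hbV i, Module.Basis.repr_self, Finsupp.smul_single, smul_eq_mul, mul_one,
        Finsupp.single_eq_same]
    · intro l _ hl
      rw [map_smul, ← hbV l, Module.Basis.repr_self, Finsupp.smul_single,
        Finsupp.single_eq_of_ne (Ne.symm hl)]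
    · intro h
      exact absurd (Finset.mem_univ i) h
  refine ⟨LinearMap.det (rL L u huL), ?_, ?_⟩
  · -- the value at zero
    have hne : Nonempty ι := by
      obtain ⟨v, hv⟩ := exists_ne (0 : V)
      by_contra h
      rw [not_nonempty_iff] at h
      apply hv
      have := bV.sum_repr v
      rw [← this]
      exact Finset.sum_eq_zero (fun i _ => (h.false i).elim)
    let Φ : Module.End k[X] L →+* Matrix ι ι k :=
      ((Polynomial.evalRingHom (0 : k)).mapMatrix).comp
        (LinearMap.toMatrixAlgEquiv b : Module.End k[X] L ≃ₐ[k[X]] Matrix ι ι k[X]).toRingEquiv.toRingHom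
    have hdet : (LinearMap.det (rL L u huL)).eval 0 = (Φ (rL L u huL)).det := by
      rw [← LinearMap.det_toMatrix b]
      have := RingHom.map_det (Polynomial.evalRingHom (0 : k)) (LinearMap.toMatrix b b (rL L u huL))
      rw [Polynomial.coe_evalRingHom] at this
      rw [this]
      rfl
    rw [hdet]
    have hΦu : Φ (rL L u huL) = Φ (rL L β hβ) * Φ (rL L u1 hu1) + Φ (rL L β' hβ') * Φ (rL L u2 hu2) := by
      rw [← map_mul, ← map_mul, ← map_add]
      congr 1
      ext v
      change u (v : V) = β (u1 v) + β' (u2 v)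
      rw [hu]
      rfl
    have hpow : ∀ (γ : Module.End (RatFunc k) V) (hγ : ∀ v ∈ L, γ v ∈ L) (j : ℕ) (v : L),
        (((rL L γ hγ) ^ j) v : V) = (γ ^ j) (v : V) := by
      intro γ hγ j
      induction j with
      | zero => intro v; rfl
      | succ j ih =>
        intro v
        rw [pow_succ, pow_succ, Module.End.mul_apply, Module.End.mul_apply, ih]
        rfl
    have hnil : ∀ (γ : Module.End (RatFunc k) V) (hγ : ∀ v ∈ L, γ v ∈ L) (e : k[X]), e.eval 0 = 0 →
        (∀ v, (γ ^ m) v = e • v) → Φ (rL L γ hγ) ^ m = 0 := by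
      intro γ hγ e he h
      rw [← map_pow]
      have h1 : (rL L γ hγ) ^ m = e • (1 : Module.End k[X] L) := by
        ext v
        rw [hpow, h]
        rfl
      rw [h1]
      change (Polynomial.evalRingHom (0 : k)).mapMatrix
        ((LinearMap.toMatrixAlgEquiv b) (e • (1 : Module.End k[X] L))) = 0
      rw [map_smul, map_one]
      ext i j
      rw [RingHom.mapMatrix_apply, Matrix.map_apply, Matrix.smul_apply, smul_eq_mul, map_mul,
        Polynomial.coe_evalRingHom, he, zero_mul]
      rfl
    have hco : Commute (Φ (rL L β hβ)) (Φ (rL L β' hβ')) := by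
      unfold Commute SemiconjBy
      rw [← map_mul, ← map_mul]
      congr 1
      ext v
      change β (β' (v : V)) = β' (β v)
      exact LinearMap.congr_fun hcomm.eq (v : V)
    obtain ⟨N, hN, hN1, hN2⟩ := exists_annih _ _ hco m (hnil β hβ c hc hβm)
      (hnil β' hβ' c' hc' hβm')
    by_contra hd
    have hunit : IsUnit (Φ (rL L u huL)) := (Matrix.isUnit_iff_isUnit_det _).mpr (isUnit_iff_ne_zero.mpr hd)
    have h0 : N * Φ (rL L u huL) = 0 := by
      rw [hΦu, mul_add, ← mul_assoc, ← mul_assoc, hN1, hN2, zero_mul, zero_mul, add_zero]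
    exact hN (by
      have := hunit.mul_left_eq_zero.mp h0
      exact this)
  · rw [← LinearMap.det_toMatrix bV, hmat, ← LinearMap.det_toMatrix b, RingHom.map_det]
    rfl

end A

end Pool.Agent.H97.KL
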