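import Mathlib

/-! Interpolation: the top coefficient of a polynomial family of determinants. -/

open Polynomial

namespace Pool.Agent.H97.KL

variable {k : Type} [Field k] [Infinite k]

/-- a polynomial over `k(t)` whose values at infinitely many constants are in `t k[t]` has constant
term in `t k[t]` -/
lemma eval_zero_mem (P : (RatFunc k)[X])
    (H : ∀ c : k, c ≠ 0 → ∃ D : k[X], D.eval 0 = 0 ∧ P.eval (RatFunc.C c) = algebraMap k[X] (RatFunc k) D) :
    ∃ D : k[X], D.eval 0 = 0 ∧ P.eval 0 = algebraMap k[X] (RatFunc k) D := by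
  classical
  obtain ⟨s, hs⟩ := Infinite.exists_subset_card_eq (α := k) (P.natDegree + 2)
  let s' := s.erase 0
  have hcard : P.natDegree + 1 ≤ s'.card := by
    have := Finset.pred_card_le_card_erase (s := s) (a := (0 : k))
    show P.natDegree + 1 ≤ (s.erase 0).card
    omega
  have hinj : Set.InjOn (fun c : k => (RatFunc.C c : RatFunc k)) s' :=
    fun a _ b _ h => RatFunc.C_injective h
  have hP : P = Lagrange.interpolate s' (fun c : k => (RatFunc.C c : RatFunc k))
      (fun i => P.eval (RatFunc.C i)) := by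
    refine Lagrange.eq_interpolate hinj ?_
    refine lt_of_le_of_lt Polynomial.degree_le_natDegree ?_
    exact_mod_cast hcard
  have hH : ∀ c : k, ∃ D : k[X], c ≠ 0 → D.eval 0 = 0 ∧
      P.eval (RatFunc.C c) = algebraMap k[X] (RatFunc k) D := by
    intro c
    by_cases h : c = 0
    · exact ⟨0, fun h' => absurd h h'⟩
    · obtain ⟨D, hD⟩ := H c h
      exact ⟨D, fun _ => hD⟩
  choose D hD using hH
  let κ : k → k := fun i => ∏ j ∈ s'.erase i, (i - j)⁻¹ * (0 - j)
  have hbasis : ∀ i ∈ s', (Lagrange.basis s' (fun c : k => (RatFunc.C c : RatFunc k)) i).eval 0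
      = RatFunc.C (κ i) := by
    intro i _
    unfold Lagrange.basis
    rw [Polynomial.eval_prod, map_prod]
    refine Finset.prod_congr rfl (fun j _ => ?_)
    unfold Lagrange.basisDivisor
    simp
  refine ⟨∑ i ∈ s', D i * C (κ i), ?_, ?_⟩
  · rw [Polynomial.eval_finsetSum]
    refine Finset.sum_eq_zero (fun i hi => ?_)
    rw [eval_mul, (hD i (Finset.ne_of_mem_erase hi)).1, zero_mul]
  · rw [hP, Lagrange.interpolate_apply, Polynomial.eval_finsetSum, map_sum]
    refine Finset.sum_congr rfl (fun i hi => ?_)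
    rw [eval_mul, eval_C, hbasis i hi, (hD i (Finset.ne_of_mem_erase hi)).2, map_mul,
      RatFunc.algebraMap_C]

theorem det_top {V : Type} [AddCommGroup V] [Module (RatFunc k) V] [FiniteDimensional (RatFunc k) V]
    (n : ℕ) (U : ℕ → Module.End (RatFunc k) V)
    (H : ∀ c : k, c ≠ 0 → ∃ D : k[X], D.eval 0 = 0 ∧
      LinearMap.det (∑ l ∈ Finset.range (n + 1), (RatFunc.C c : RatFunc k) ^ l • U l)
        = algebraMap k[X] (RatFunc k) D) :
    ∃ D : k[X], D.eval 0 = 0 ∧ LinearMap.det (U n) = algebraMap k[X] (RatFunc k) D := by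
  classical
  let b := Module.finBasis (RatFunc k) V
  let M : ℕ → Matrix _ _ (RatFunc k) := fun l => LinearMap.toMatrix b b (U l)
  let PM : Matrix (Fin (Module.finrank (RatFunc k) V)) (Fin (Module.finrank (RatFunc k) V)) (RatFunc k)[X] :=
    ∑ l ∈ Finset.range (n + 1), (X : (RatFunc k)[X]) ^ (n - l) • (M l).map Polynomial.C
  have hev : ∀ μ : RatFunc k, (PM.det).eval μ =
      (∑ l ∈ Finset.range (n + 1), μ ^ (n - l) • M l).det := by
    intro μ
    have := RingHom.map_det (Polynomial.evalRingHom μ) PM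
    rw [Polynomial.coe_evalRingHom] at this
    rw [this]
    congr 1
    rw [map_sum]
    refine Finset.sum_congr rfl (fun l _ => ?_)
    ext i j
    simp only [RingHom.mapMatrix_apply, Polynomial.coe_evalRingHom, Matrix.map_apply,
      Matrix.smul_apply, smul_eq_mul, Polynomial.eval_mul, Polynomial.eval_pow, Polynomial.eval_X,
      Polynomial.eval_C]
  have h0 : (PM.det).eval 0 = LinearMap.det (U n) := by
    rw [hev, ← LinearMap.det_toMatrix b]
    congr 1
    rw [Finset.sum_eq_single n]
    · rw [Nat.sub_self, pow_zero, one_smul]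
    · intro l hl hln
      have : n - l ≠ 0 := by
        rw [Finset.mem_range] at hl
        omega
      rw [zero_pow this, zero_smul]
    · intro h
      exact absurd (Finset.self_mem_range_succ n) h
  rw [← h0]
  refine eval_zero_mem _ ?_
  intro c hc
  obtain ⟨D, hD0, hD⟩ := H c⁻¹ (inv_ne_zero hc)
  have hcc : (RatFunc.C c : RatFunc k) ≠ 0 := by
    intro h
    exact hc (RatFunc.C_injective (by rw [h, map_zero]))
  refine ⟨C (c ^ n) ^ (Module.finrank (RatFunc k) V) * D, by rw [eval_mul, hD0, mul_zero], ?_⟩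
  rw [hev, map_mul, ← hD, ← LinearMap.det_toMatrix b]
  have h1 : (∑ l ∈ Finset.range (n + 1), (RatFunc.C c : RatFunc k) ^ (n - l) • M l) =
      (RatFunc.C (c ^ n) : RatFunc k) • LinearMap.toMatrix b b
        (∑ l ∈ Finset.range (n + 1), (RatFunc.C c⁻¹ : RatFunc k) ^ l • U l) := by
    rw [map_sum, Finset.smul_sum]
    refine Finset.sum_congr rfl (fun l hl => ?_)
    rw [map_smul, smul_smul]
    congr 1
    rw [Finset.mem_range] at hl
    rw [map_inv₀, map_pow, inv_pow]
    rw [eq_mul_inv_iff_mul_eq₀ (pow_ne_zero _ hcc), ← pow_add]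
    congr 1
    omega
  rw [h1, Matrix.det_smul, Fintype.card_fin, map_pow (algebraMap k[X] (RatFunc k)),
    RatFunc.algebraMap_C]

end Pool.Agent.H97.KL
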