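import Pool.Agent.H97.KL.Lat

/-! The lattice lemma in characteristic `p`: conclusion. -/

open MvPolynomial H50.DO
open scoped Polynomial

set_option linter.unusedSectionVars false

namespace Pool.Agent.H97.KL

section fin

variable {ν : Type} [Fintype ν] [DecidableEq ν] {k : Type} [Field k]
  {E : Type} [CommRing E] [Algebra (RatFunc k) E] [Algebra k[X] E] [IsScalarTower k[X] (RatFunc k) E]
  (π : MvPolynomial ν (RatFunc k) →ₐ[RatFunc k] E) (hπ : Function.Surjective π)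
  (A₀ : Subalgebra (RatFunc k) (MvPolynomial ν (RatFunc k)))

/-- the image of `A₀` -/
noncomputable def V0 : Submodule (RatFunc k) E :=
  (Subalgebra.toSubmodule A₀).map π.toLinearMap

/-- the operator induced on the image of `A₀` -/
noncomputable def opV (P : Module.End (RatFunc k) (MvPolynomial ν (RatFunc k)))
    (hP : ∀ a, π a = 0 → π (P a) = 0) (hA : ∀ a ∈ A₀, P a ∈ A₀) :
    Module.End (RatFunc k) (V0 π A₀) :=
  (opE π hπ P hP).restrict (p := V0 π A₀) (q := V0 π A₀) (by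
    rintro _ ⟨a, ha, rfl⟩
    exact ⟨P a, hA a ha, (opE_apply π hπ P hP a).symm⟩)

lemma opV_apply (P : Module.End (RatFunc k) (MvPolynomial ν (RatFunc k)))
    (hP : ∀ a, π a = 0 → π (P a) = 0) (hA : ∀ a ∈ A₀, P a ∈ A₀) (a : MvPolynomial ν (RatFunc k))
    (v : V0 π A₀) (hv : π a = (v : E)) : ((opV π hπ A₀ P hP hA v : V0 π A₀) : E) = π (P a) := by
  change opE π hπ P hP v = _
  rw [← hv, opE_apply]

lemma exists_rep (v : V0 π A₀) : ∃ a ∈ A₀, π a = (v : E) := by
  obtain ⟨a, ha, hv⟩ := v.2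
  exact ⟨a, ha, hv⟩

lemma mulLeft_zero (g a : MvPolynomial ν (RatFunc k)) (ha : π a = 0) :
    π (LinearMap.mulLeft (RatFunc k) g a) = 0 := by
  rw [LinearMap.mulLeft_apply, map_mul, ha, mul_zero]

lemma mulLeft_memA {g : MvPolynomial ν (RatFunc k)} (hg : g ∈ A₀) (a : MvPolynomial ν (RatFunc k))
    (ha : a ∈ A₀) : LinearMap.mulLeft (RatFunc k) g a ∈ A₀ := by
  rw [LinearMap.mulLeft_apply]
  exact A₀.mul_mem hg ha

/-- multiplication by `g` on the image of `A₀` -/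
noncomputable def mulV (g : MvPolynomial ν (RatFunc k)) (hg : g ∈ A₀) :
    Module.End (RatFunc k) (V0 π A₀) :=
  opV π hπ A₀ (LinearMap.mulLeft (RatFunc k) g) (mulLeft_zero π g) (mulLeft_memA A₀ hg)

lemma mulV_apply (g : MvPolynomial ν (RatFunc k)) (hg : g ∈ A₀) (v : V0 π A₀) :
    ((mulV π hπ A₀ g hg v : V0 π A₀) : E) = π g * v := by
  obtain ⟨a, -, hv⟩ := exists_rep π A₀ v
  rw [mulV, opV_apply π hπ A₀ _ _ _ a v hv, LinearMap.mulLeft_apply, map_mul, hv]

lemma mulV_pow (g : MvPolynomial ν (RatFunc k)) (hg : g ∈ A₀) (m : ℕ) (v : V0 π A₀) :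
    (((mulV π hπ A₀ g hg ^ m) v : V0 π A₀) : E) = π g ^ m * v := by
  induction m with
  | zero => simp
  | succ m ih => rw [pow_succ', Module.End.mul_apply, mulV_apply, ih, pow_succ', mul_assoc]

lemma mulV_comm (g g' : MvPolynomial ν (RatFunc k)) (hg : g ∈ A₀) (hg' : g' ∈ A₀) :
    Commute (mulV π hπ A₀ g hg) (mulV π hπ A₀ g' hg') := by
  refine LinearMap.ext (fun v => Subtype.ext ?_)
  rw [Module.End.mul_apply, Module.End.mul_apply, mulV_apply, mulV_apply, mulV_apply, mulV_apply]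
  ring

lemma V0_nontrivial [Nontrivial E] : Nontrivial (V0 π A₀) := by
  refine ⟨⟨⟨1, ⟨1, A₀.one_mem, map_one π⟩⟩, 0, fun h => ?_⟩⟩
  exact one_ne_zero (congrArg Subtype.val h)

/-- the coefficient operators `a ↦ (evT h e (a, 0, 0, …))_l` -/
noncomputable def coefOp (h : MvPolynomial ν (RatFunc k)) (e : WExp ν (RatFunc k)) (l : ℕ) :
    Module.End (RatFunc k) (MvPolynomial ν (RatFunc k)) where
  toFun a := WExp.evT h e (sgl a) l
  map_add' a b := by
    have h1 : sgl (a + b) = sgl a + sgl b := by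
      funext l
      simp only [sgl, Pi.add_apply]
      split_ifs <;> simp
    rw [h1, map_add]
    rfl
  map_smul' c a := by
    have h1 : sgl (c • a) = c • sgl a := by
      funext l
      simp only [sgl, Pi.smul_apply]
      split_ifs <;> simp
    rw [h1, map_smul]
    rfl

lemma coefOp_apply (h : MvPolynomial ν (RatFunc k)) (e : WExp ν (RatFunc k)) (l : ℕ)
    (a : MvPolynomial ν (RatFunc k)) : coefOp h e l a = WExp.evT h e (sgl a) l := rfl

lemma coefOp_memA (h : MvPolynomial ν (RatFunc k)) (e : WExp ν (RatFunc k))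
    (h1 : ∀ a ∈ A₀, ∀ l, WExp.evT h e (sgl a) l ∈ A₀) (l : ℕ) (a : MvPolynomial ν (RatFunc k))
    (ha : a ∈ A₀) : coefOp h e l a ∈ A₀ := h1 a ha l

lemma coefOp_zero (hd : ∀ i a, π a = 0 → π (pderiv i a) = 0)
    (h : MvPolynomial ν (RatFunc k)) (e : WExp ν (RatFunc k)) (l : ℕ)
    (a : MvPolynomial ν (RatFunc k)) (ha : π a = 0) : π (coefOp h e l a) = 0 := by
  refine evT_zero π hd h e _ (fun l => ?_) l
  unfold sgl
  split_ifs
  · exact ha
  · exact map_zero π

lemma evN_memA (h : MvPolynomial ν (RatFunc k)) (e : WExp ν (RatFunc k))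
    (h1 : ∀ a ∈ A₀, ∀ l, WExp.evT h e (sgl a) l ∈ A₀) (c : RatFunc k)
    (a : MvPolynomial ν (RatFunc k)) (ha : a ∈ A₀) : evN h c e a ∈ A₀ := by
  obtain ⟨M, -, h3⟩ := (rep_sgl c a).evT (h := h) e
  rw [h3]
  refine A₀.sum_mem (fun l _ => A₀.mul_mem (A₀.pow_mem ?_ _) (h1 a ha l))
  rw [← MvPolynomial.algebraMap_eq]
  exact A₀.algebraMap_mem c

/-- the lattice in the image of `A₀` -/
noncomputable def LV (h : MvPolynomial ν (RatFunc k)) (c : RatFunc k) :
    Submodule k[X] (V0 π A₀) :=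
  (Mlat π h c).comap ((V0 π A₀).subtype.restrictScalars k[X])

lemma mem_LV {h : MvPolynomial ν (RatFunc k)} {c : RatFunc k} {v : V0 π A₀} :
    v ∈ LV π A₀ h c ↔ (v : E) ∈ Mlat π h c := Iff.rfl

lemma LV_fg {h : MvPolynomial ν (RatFunc k)} {c : RatFunc k} (hM : (Mlat π h c).FG) :
    (LV π A₀ h c).FG := by
  refine Submodule.fg_of_fg_map_injective ((V0 π A₀).subtype.restrictScalars k[X])
    Subtype.val_injective ?_
  refine Submodule.FG.of_le hM ?_
  rintro _ ⟨v, hv, rfl⟩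
  exact hv

include hπ in
lemma LV_sat (h : MvPolynomial ν (RatFunc k)) (c : RatFunc k) (v : V0 π A₀) :
    ∃ q : k[X], q ≠ 0 ∧ q • v ∈ LV π A₀ h c := by
  obtain ⟨q, hq, hm⟩ := exists_smul_mem_R0 π hπ (v : E)
  exact ⟨q, hq, R0_le π h c hm⟩

lemma opV_mem (h : MvPolynomial ν (RatFunc k)) (c : RatFunc k)
    (P : Module.End (RatFunc k) (MvPolynomial ν (RatFunc k)))
    (hP : ∀ a, π a = 0 → π (P a) = 0) (hA : ∀ a ∈ A₀, P a ∈ A₀)
    (hM : ∀ a, π a ∈ Mlat π h c → π (P a) ∈ Mlat π h c) :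
    ∀ v ∈ LV π A₀ h c, opV π hπ A₀ P hP hA v ∈ LV π A₀ h c := by
  intro v hv
  obtain ⟨a, -, ha⟩ := exists_rep π A₀ v
  rw [mem_LV, opV_apply π hπ A₀ P hP hA a v ha]
  refine hM a ?_
  rw [ha]
  exact hv

include hπ in
theorem main_lat [Infinite k] [Nontrivial E] [FiniteDimensional (RatFunc k) E]
    (p : ℕ) [Fact p.Prime] [CharP k p]
    (h : MvPolynomial ν (RatFunc k))
    (E₀ E₁ E₂ : WExp ν k) (n : ℕ)
    (b b' : MvPolynomial ν k) (F : MvPolynomial ν (RatFunc k)) (hF : F ∈ A₀)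
    (hb : map (RatFunc.C : k →+* RatFunc k) b ∈ A₀) (hb' : map (RatFunc.C : k →+* RatFunc k) b' ∈ A₀)
    (h1 : ∀ E' ∈ [E₀, E₁, E₂], ∀ a ∈ A₀, ∀ l,
      (WExp.evT h (WExp.bc (RatFunc.C : k →+* RatFunc k) E')) (sgl a) l ∈ A₀)
    (h2 : ∀ a ∈ A₀, ∀ l, (WExp.evT h (WExp.bc (RatFunc.C : k →+* RatFunc k) E₀)) (sgl a) l =
      map (RatFunc.C : k →+* RatFunc k) b *
        (WExp.evT h (WExp.bc (RatFunc.C : k →+* RatFunc k) E₁)) (sgl a) l +
      map (RatFunc.C : k →+* RatFunc k) b' *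
        (WExp.evT h (WExp.bc (RatFunc.C : k →+* RatFunc k) E₂)) (sgl a) l)
    (h3 : ∀ a ∈ A₀, ∀ l, n < l → (WExp.evT h (WExp.bc (RatFunc.C : k →+* RatFunc k) E₀)) (sgl a) l = 0)
    (h4 : ∀ a ∈ A₀, (WExp.evT h (WExp.bc (RatFunc.C : k →+* RatFunc k) E₀)) (sgl a) n = F * a)
    (x η : ν → k[X])
    (hX : ∀ j, π (X j) ^ p = algebraMap (RatFunc k) E (algebraMap k[X] (RatFunc k) (x j) ^ p))
    (hd : ∀ i a, π a = 0 → π (pderiv i a) = 0)
    (hη : ∀ i, eval (fun j => algebraMap k[X] (RatFunc k) (x j)) (pderiv i h) =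
      algebraMap k[X] (RatFunc k) (η i))
    (hb0 : eval (fun j => (x j).eval 0) b = 0) (hb0' : eval (fun j => (x j).eval 0) b' = 0)
    (φ : k[X])
    (hφ : eval (fun j => algebraMap k[X] (RatFunc k) (x j)) F =
      algebraMap k[X] (RatFunc k) φ) :
    φ.eval 0 = 0 := by
  have hp : 0 < p := (Fact.out : p.Prime).pos
  have hp0 : p ≠ 0 := hp.ne'
  have hVn : Nontrivial (V0 π A₀) := V0_nontrivial π A₀
  have hE0 : E₀ ∈ [E₀, E₁, E₂] := by simp
  have hE1 : E₁ ∈ [E₀, E₁, E₂] := by simp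
  have hE2 : E₂ ∈ [E₀, E₁, E₂] := by simp
  -- evaluation of polynomials over `k`
  have hev : ∀ q : MvPolynomial ν k,
      eval (fun j => algebraMap k[X] (RatFunc k) (x j)) (map (RatFunc.C : k →+* RatFunc k) q) =
        algebraMap k[X] (RatFunc k) (eval x (map Polynomial.C q)) := by
    intro q
    rw [eval_map, eval_map, hom_eval₂]
    congr 1
  have hev0 : ∀ q : MvPolynomial ν k, (eval x (map Polynomial.C q)).eval 0 =
      eval (fun j => (x j).eval 0) q := by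
    intro q
    have h5 := hom_eval₂ q (Polynomial.C : k →+* k[X]) (Polynomial.evalRingHom 0) x
    rw [eval_map]
    have h6 : (Polynomial.evalRingHom (0 : k)).comp Polynomial.C = RingHom.id k := by
      ext a; simp
    rw [h6] at h5
    exact h5
  have hscal : ∀ (q : MvPolynomial ν k) (hq : map (RatFunc.C : k →+* RatFunc k) q ∈ A₀)
      (v : V0 π A₀), (mulV π hπ A₀ _ hq ^ p) v = (eval x (map Polynomial.C q)) ^ p • v := by
    intro q hq v
    refine Subtype.ext ?_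
    rw [mulV_pow, pi_pow_char π p x hX, hev, ← map_pow, ← Algebra.smul_def, algebraMap_smul]
    rfl
  set uop : RatFunc k → Module.End (RatFunc k) (V0 π A₀) := fun c =>
    opV π hπ A₀ (evN h c (WExp.bc (RatFunc.C : k →+* RatFunc k) E₀)) (evN_zero π hd h c _)
      (evN_memA A₀ h _ (h1 E₀ hE0) c) with huop
  set U : ℕ → Module.End (RatFunc k) (V0 π A₀) := fun l =>
    opV π hπ A₀ (coefOp h (WExp.bc (RatFunc.C : k →+* RatFunc k) E₀) l) (coefOp_zero π hd h _ l)
      (coefOp_memA A₀ h _ (h1 E₀ hE0) l) with hU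
  have hsumU : ∀ c : RatFunc k, ∑ l ∈ Finset.range (n + 1), c ^ l • U l = uop c := by
    intro c
    refine LinearMap.ext (fun v => Subtype.ext ?_)
    obtain ⟨a, haA, hav⟩ := exists_rep π A₀ v
    have e1 := ((rep_sgl c a).evT (h := h) (WExp.bc (RatFunc.C : k →+* RatFunc k) E₀)).eq_sum
      (M := n + 1) (fun l hl => h3 a haA l (by omega))
    rw [huop]
    simp only
    rw [opV_apply π hπ A₀ _ _ _ a v hav, e1, LinearMap.sum_apply, Submodule.coe_sum, map_sum]
    refine Finset.sum_congr rfl (fun l _ => ?_)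
    rw [LinearMap.smul_apply, Submodule.coe_smul, hU]
    simp only
    rw [opV_apply π hπ A₀ _ _ _ a v hav, ← map_pow, ← smul_eq_C_mul, map_smul, coefOp_apply]
  have hdet : ∀ c : k, ∃ D : k[X], D.eval 0 = 0 ∧
      LinearMap.det (uop (RatFunc.C c)) = algebraMap k[X] (RatFunc k) D := by
    intro c
    have hMfg := Mlat_fg π p x η hX h hη c
    have hst : ∀ (e : WExp ν k) (he : e ∈ [E₀, E₁, E₂]), ∀ v ∈ LV π A₀ h (RatFunc.C c),
        opV π hπ A₀ (evN h (RatFunc.C c) (WExp.bc (RatFunc.C : k →+* RatFunc k) e))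
          (evN_zero π hd h _ _) (evN_memA A₀ h _ (h1 e he) _) v ∈ LV π A₀ h (RatFunc.C c) := by
      intro e he
      exact opV_mem π hπ A₀ h _ _ _ _ (evN_mem π hπ hd h (RatFunc.C c) e)
    have hstm : ∀ (q : MvPolynomial ν k) (hq : map (RatFunc.C : k →+* RatFunc k) q ∈ A₀),
        ∀ v ∈ LV π A₀ h (RatFunc.C c), mulV π hπ A₀ _ hq v ∈ LV π A₀ h (RatFunc.C c) := by
      intro q hq
      exact opV_mem π hπ A₀ h _ _ _ _ (evN_mem π hπ hd h (RatFunc.C c) (.mul q))
    refine det_eval_zero (LV π A₀ h (RatFunc.C c)) (LV_fg π A₀ hMfg) (LV_sat π hπ A₀ h _)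
      (mulV π hπ A₀ _ hb) (mulV π hπ A₀ _ hb')
      (opV π hπ A₀ (evN h (RatFunc.C c) (WExp.bc (RatFunc.C : k →+* RatFunc k) E₁))
          (evN_zero π hd h _ _) (evN_memA A₀ h _ (h1 E₁ hE1) _))
      (opV π hπ A₀ (evN h (RatFunc.C c) (WExp.bc (RatFunc.C : k →+* RatFunc k) E₂))
          (evN_zero π hd h _ _) (evN_memA A₀ h _ (h1 E₂ hE2) _))
      (uop (RatFunc.C c)) (hstm b hb) (hstm b' hb') (hst E₁ hE1) (hst E₂ hE2) ?_
      (mulV_comm π hπ A₀ _ _ hb hb') p _ _ ?_ ?_ (hscal b hb) (hscal b' hb')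
    · refine LinearMap.ext (fun v => Subtype.ext ?_)
      obtain ⟨a, haA, hav⟩ := exists_rep π A₀ v
      have r0 := (rep_sgl (RatFunc.C c) a).evT (h := h) (WExp.bc (RatFunc.C : k →+* RatFunc k) E₀)
      have r1 := (rep_sgl (RatFunc.C c) a).evT (h := h) (WExp.bc (RatFunc.C : k →+* RatFunc k) E₁)
      have r2 := (rep_sgl (RatFunc.C c) a).evT (h := h) (WExp.bc (RatFunc.C : k →+* RatFunc k) E₂)
      have r12 : Rep (RatFunc.C c)
          (WExp.evT h (WExp.bc (RatFunc.C : k →+* RatFunc k) E₀) (sgl a)) _ :=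
        cast (by
          congr 1
          funext l
          exact (h2 a haA l).symm) ((r1.mulSeq (map (RatFunc.C : k →+* RatFunc k) b)).add
            (r2.mulSeq (map (RatFunc.C : k →+* RatFunc k) b')))
      have r3 := r0.unique r12
      rw [LinearMap.add_apply, Submodule.coe_add, Module.End.mul_apply, Module.End.mul_apply,
        mulV_apply, mulV_apply, huop]
      simp only
      rw [opV_apply π hπ A₀ _ _ _ a v hav, opV_apply π hπ A₀ _ _ _ a v hav,
        opV_apply π hπ A₀ _ _ _ a v hav, r3, map_add, map_mul, map_mul]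
    · rw [Polynomial.eval_pow, hev0, hb0, zero_pow hp0]
    · rw [Polynomial.eval_pow, hev0, hb0', zero_pow hp0]
  obtain ⟨D, hD0, hD⟩ := det_top n U (fun c _ => by
    rw [hsumU]
    exact hdet c)
  have hUn : ∀ v, (U n ^ p) v = algebraMap k[X] (RatFunc k) φ ^ p • v := by
    intro v
    have e1 : U n = mulV π hπ A₀ F hF := by
      refine LinearMap.ext (fun v => Subtype.ext ?_)
      obtain ⟨a, haA, hav⟩ := exists_rep π A₀ v
      rw [mulV_apply, hU]
      simp only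
      rw [opV_apply π hπ A₀ _ _ _ a v hav, ← hav, ← map_mul, coefOp_apply, h4 a haA]
    refine Subtype.ext ?_
    rw [e1, mulV_pow, pi_pow_char π p x hX, hφ, ← Algebra.smul_def]
    rfl
  have hUn' : U n ^ p = (algebraMap k[X] (RatFunc k) φ ^ p) • (1 : Module.End (RatFunc k) (V0 π A₀)) :=
    LinearMap.ext (fun v => by rw [hUn, LinearMap.smul_apply, Module.End.one_apply])
  have hdd : LinearMap.det (U n) ^ p =
      (algebraMap k[X] (RatFunc k) φ ^ p) ^ (Module.finrank (RatFunc k) (V0 π A₀)) := by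
    rw [← map_pow, hUn', LinearMap.det_smul, map_one, mul_one]
  rw [hD, ← map_pow, ← map_pow, ← map_pow] at hdd
  have hdd' := FaithfulSMul.algebraMap_injective k[X] (RatFunc k) hdd
  have h7 := congrArg (Polynomial.eval 0) hdd'
  rw [Polynomial.eval_pow, Polynomial.eval_pow, Polynomial.eval_pow, hD0, zero_pow hp0] at h7
  exact (pow_eq_zero_iff hp0).1 ((pow_eq_zero_iff
    (Module.finrank_pos (R := RatFunc k) (M := V0 π A₀)).ne').1 h7.symm)

end fin

end Pool.Agent.H97.KL
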