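import Pool.Agent.H50.DO.Expr

/-! The operators `∇_i = ∂_i + c ∂_i h` and expressions evaluated at them. -/

open MvPolynomial H50.DO

namespace Pool.Agent.H97.KL

section ops

variable {ν : Type} {R : Type} [CommRing R]

/-- `∇_i = ∂_i + c ∂_i h` -/
noncomputable def nab (h : MvPolynomial ν R) (c : R) (i : ν) : Module.End R (MvPolynomial ν R) :=
  (pderiv i).toLinearMap + LinearMap.mulLeft R (C c * pderiv i h)

lemma nab_apply (h : MvPolynomial ν R) (c : R) (i : ν) (a : MvPolynomial ν R) :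
    nab h c i a = pderiv i a + C c * pderiv i h * a := rfl

/-- an expression evaluated at the `∇_i` -/
noncomputable def evN (h : MvPolynomial ν R) (c : R) : WExp ν R → Module.End R (MvPolynomial ν R)
  | .mul q => LinearMap.mulLeft R q
  | .d i => nab h c i
  | .add a b => evN h c a + evN h c b
  | .comp a b => evN h c a * evN h c b

/-- the finitely supported sequence `s` has the value `a` at `c` -/
def Rep (c : R) (s : ℕ → MvPolynomial ν R) (a : MvPolynomial ν R) : Prop :=
  ∃ M : ℕ, (∀ l, M ≤ l → s l = 0) ∧ a = ∑ l ∈ Finset.range M, C c ^ l * s l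

lemma sum_eq_of_le (c : R) (s : ℕ → MvPolynomial ν R) {M M' : ℕ} (h : M ≤ M')
    (hs : ∀ l, M ≤ l → s l = 0) :
    ∑ l ∈ Finset.range M, C c ^ l * s l = ∑ l ∈ Finset.range M', C c ^ l * s l := by
  refine Finset.sum_subset (Finset.range_mono h) (fun l _ hl => ?_)
  rw [Finset.mem_range, not_lt] at hl
  rw [hs l hl, mul_zero]

lemma Rep.eq_sum {c : R} {s : ℕ → MvPolynomial ν R} {a : MvPolynomial ν R} (h : Rep c s a) {M : ℕ}
    (hs : ∀ l, M ≤ l → s l = 0) : a = ∑ l ∈ Finset.range M, C c ^ l * s l := by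
  obtain ⟨M', h1, h2⟩ := h
  rw [h2]
  rcases le_total M M' with h | h
  · exact (sum_eq_of_le c s h hs).symm
  · exact sum_eq_of_le c s h h1

lemma Rep.unique {c : R} {s : ℕ → MvPolynomial ν R} {a a' : MvPolynomial ν R} (h : Rep c s a)
    (h' : Rep c s a') : a = a' := by
  obtain ⟨M', h1, h2⟩ := h'
  rw [h.eq_sum h1, ← h2]

lemma Rep.mono {c : R} {s : ℕ → MvPolynomial ν R} {a : MvPolynomial ν R} (h : Rep c s a) (N : ℕ) :
    ∃ M, N ≤ M ∧ (∀ l, M ≤ l → s l = 0) ∧ a = ∑ l ∈ Finset.range M, C c ^ l * s l := by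
  obtain ⟨M, h1, h2⟩ := h
  refine ⟨max N M, le_max_left _ _, fun l hl => h1 l (le_trans (le_max_right _ _) hl), ?_⟩
  rw [h2]
  exact sum_eq_of_le c s (le_max_right _ _) h1

lemma rep_sgl (c : R) (a : MvPolynomial ν R) : Rep c (sgl a) a := by
  refine ⟨1, fun l hl => ?_, ?_⟩
  · unfold sgl
    rw [if_neg (by omega)]
  · simp [sgl]

lemma Rep.add {c : R} {s s' : ℕ → MvPolynomial ν R} {a a' : MvPolynomial ν R} (h : Rep c s a)
    (h' : Rep c s' a') : Rep c (s + s') (a + a') := by
  obtain ⟨M', h1, h2⟩ := h'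
  obtain ⟨M, h3, h4, h5⟩ := h.mono M'
  refine ⟨M, fun l hl => ?_, ?_⟩
  · rw [Pi.add_apply, h4 l hl, h1 l (le_trans h3 hl), add_zero]
  · rw [h5, h2, sum_eq_of_le c s' h3 h1, ← Finset.sum_add_distrib]
    refine Finset.sum_congr rfl (fun l _ => ?_)
    rw [Pi.add_apply, mul_add]

lemma Rep.mulSeq {c : R} {s : ℕ → MvPolynomial ν R} {a : MvPolynomial ν R} (h : Rep c s a)
    (q : MvPolynomial ν R) : Rep c (WExp.mulSeq q s) (q * a) := by
  obtain ⟨M, h1, h2⟩ := h
  refine ⟨M, fun l hl => ?_, ?_⟩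
  · change q * s l = 0
    rw [h1 l hl, mul_zero]
  · rw [h2, Finset.mul_sum]
    refine Finset.sum_congr rfl (fun l _ => ?_)
    change q * (C c ^ l * s l) = C c ^ l * (q * s l)
    ring

lemma Rep.T {c : R} {s : ℕ → MvPolynomial ν R} {a : MvPolynomial ν R} (hr : Rep c s a)
    (h : MvPolynomial ν R) (i : ν) : Rep c (T h i s) (nab h c i a) := by
  obtain ⟨M, h1, h2⟩ := hr
  refine ⟨M + 1, fun l hl => ?_, ?_⟩
  · obtain ⟨l, rfl⟩ : ∃ l', l = l' + 1 := ⟨l - 1, by omega⟩
    rw [T_succ, h1 _ (by omega), h1 _ (by omega), map_zero, mul_zero, add_zero]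
  · rw [nab_apply, h2, map_sum, Finset.mul_sum]
    have e1 : ∑ l ∈ Finset.range M, pderiv i (C c ^ l * s l) =
        ∑ l ∈ Finset.range (M + 1), C c ^ l * pderiv i (s l) := by
      rw [Finset.sum_range_succ, h1 M le_rfl, map_zero, mul_zero, add_zero]
      refine Finset.sum_congr rfl (fun l _ => ?_)
      rw [← map_pow, Derivation.leibniz, pderiv_C, smul_zero, add_zero, smul_eq_mul]
    rw [e1, Finset.sum_range_succ', Finset.sum_range_succ' (n := M)]
    simp only [T_succ, T_zero, pow_zero, one_mul]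
    rw [add_right_comm, ← Finset.sum_add_distrib]
    congr 1
    refine Finset.sum_congr rfl (fun l _ => ?_)
    rw [pow_succ]
    ring

lemma Rep.evT {c : R} {h : MvPolynomial ν R} (e : WExp ν R) {s : ℕ → MvPolynomial ν R}
    {a : MvPolynomial ν R} (hr : Rep c s a) : Rep c (WExp.evT h e s) (evN h c e a) := by
  induction e generalizing s a with
  | mul q => exact hr.mulSeq q
  | d i => exact hr.T h i
  | add x y ihx ihy => exact (ihx hr).add (ihy hr)
  | comp x y ihx ihy => exact ihx (ihy hr)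

lemma rep_T_pow (c : R) (h a : MvPolynomial ν R) (i : ν) (m : ℕ) :
    Rep c ((H50.DO.T h i ^ m) (sgl a)) ((nab h c i ^ m) a) := by
  induction m with
  | zero => exact rep_sgl c a
  | succ m ih =>
    rw [pow_succ', pow_succ', Module.End.mul_apply, Module.End.mul_apply]
    exact ih.T h i

lemma nab_comm (h : MvPolynomial ν R) (c : R) (i j : ν) : Commute (nab h c i) (nab h c j) := by
  apply LinearMap.ext
  intro a
  have h1 : Rep c ((H50.DO.T h i * H50.DO.T h j) (sgl a)) ((nab h c i * nab h c j) a) :=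
    ((rep_sgl c a).T h j).T h i
  have h2 : Rep c ((H50.DO.T h j * H50.DO.T h i) (sgl a)) ((nab h c j * nab h c i) a) :=
    ((rep_sgl c a).T h i).T h j
  rw [(T_comm h i j).eq] at h1
  exact h1.unique h2

lemma nab_pow [IsDomain R] (p : ℕ) [Fact p.Prime] [CharP R p] (h : MvPolynomial ν R) (c : R)
    (i : ν) (a : MvPolynomial ν R) : (nab h c i ^ p) a = (C c * pderiv i h) ^ p * a := by
  have h1 := (rep_T_pow c h a i p).eq_sum (M := p + 1) (fun l hl => by
    rw [T_pow_char_sgl p, if_neg (by omega)])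
  rw [h1, Finset.sum_range_succ, Finset.sum_eq_zero, zero_add]
  · rw [T_pow_char_sgl p, if_pos rfl]
    ring
  · intro l hl
    rw [Finset.mem_range] at hl
    rw [T_pow_char_sgl p, if_neg (by omega), mul_zero]

end ops

section descend

/-- the operator induced on a quotient ring -/
noncomputable def opE {K S E : Type*} [CommRing K] [CommRing S] [CommRing E] [Algebra K S]
    [Algebra K E] (π : S →ₐ[K] E) (hπ : Function.Surjective π) (P : Module.End K S)
    (hP : ∀ a, π a = 0 → π (P a) = 0) : Module.End K E where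
  toFun e := π (P (Function.surjInv hπ e))
  map_add' x y := by
    have e := fun z : E => Function.surjInv_eq hπ z
    rw [← map_add, ← map_add]
    rw [← sub_eq_zero, ← map_sub, ← map_sub]
    refine hP _ ?_
    rw [map_sub, map_add, e, e, e, sub_self]
  map_smul' c x := by
    have e := fun z : E => Function.surjInv_eq hπ z
    rw [RingHom.id_apply, ← map_smul, ← map_smul, ← sub_eq_zero, ← map_sub, ← map_sub]
    refine hP _ ?_
    rw [map_sub, map_smul, e, e, sub_self]

lemma opE_apply {K S E : Type*} [CommRing K] [CommRing S] [CommRing E] [Algebra K S]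
    [Algebra K E] (π : S →ₐ[K] E) (hπ : Function.Surjective π) (P : Module.End K S)
    (hP : ∀ a, π a = 0 → π (P a) = 0) (a : S) : opE π hπ P hP (π a) = π (P a) := by
  change π (P (Function.surjInv hπ (π a))) = π (P a)
  have e := fun z : E => Function.surjInv_eq hπ z
  rw [← sub_eq_zero, ← map_sub, ← map_sub]
  refine hP _ ?_
  rw [map_sub, e, sub_self]

end descend

end Pool.Agent.H97.KL
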