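import Pool.Agent.H97.KL.DetA
import Pool.Agent.H97.KL.DetB
import Pool.Agent.H97.KL.Ops

/-! The lattice lemma in characteristic `p`, over an abstract quotient ring `E`. -/

open MvPolynomial H50.DO
open scoped Polynomial

set_option linter.unusedSectionVars false

namespace Pool.Agent.H97.KL

section lat

variable {ν : Type} [Fintype ν] [DecidableEq ν] {k : Type} [Field k]
  {E : Type} [CommRing E] [Algebra (RatFunc k) E] [Algebra k[X] E] [IsScalarTower k[X] (RatFunc k) E]
  (π : MvPolynomial ν (RatFunc k) →ₐ[RatFunc k] E) (p : ℕ)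

/-- `q ↦ π(q)` on polynomials over `k[X]` -/
noncomputable def psi : MvPolynomial ν k[X] →ₐ[k[X]] E := aeval (fun j => π (X j))

lemma psi_apply (q : MvPolynomial ν k[X]) :
    psi π q = π (map (algebraMap k[X] (RatFunc k)) q) := by
  induction q using MvPolynomial.induction_on with
  | C a =>
    rw [map_C, psi, aeval_C, ← MvPolynomial.algebraMap_eq, AlgHom.commutes,
      IsScalarTower.algebraMap_apply k[X] (RatFunc k) E]
  | add a b ha hb => rw [map_add, map_add, map_add, ha, hb]
  | mul_X a j ha => rw [map_mul, map_mul, map_mul, ha, map_X, psi, aeval_X]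

/-- the lattice `R₀` -/
noncomputable def R0 : Submodule k[X] E := Subalgebra.toSubmodule (psi π).range

lemma mem_R0 {e : E} : e ∈ R0 π ↔ ∃ q, psi π q = e := by
  rw [R0, Subalgebra.mem_toSubmodule, AlgHom.mem_range]

lemma R0_fg [Fact p.Prime] (x : ν → k[X])
    (hX : ∀ j, π (X j) ^ p = algebraMap (RatFunc k) E (algebraMap k[X] (RatFunc k) (x j) ^ p)) :
    (R0 π).FG := by
  have hp : 0 < p := (Fact.out : p.Prime).pos
  have h1 : (Subalgebra.toSubmodule (Algebra.adjoin k[X] (Set.range fun j => π (X j)))).FG := by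
    refine fg_adjoin_of_finite (Set.finite_range _) ?_
    rintro _ ⟨j, rfl⟩
    refine IsIntegral.of_pow hp ?_
    change IsIntegral k[X] (π (X j) ^ p)
    rw [hX, ← map_pow, ← IsScalarTower.algebraMap_apply]
    exact isIntegral_algebraMap
  rw [Algebra.adjoin_range_eq_range_aeval] at h1
  exact h1

lemma exists_smul_mem_R0 (hπ : Function.Surjective π) (v : E) :
    ∃ q : k[X], q ≠ 0 ∧ q • v ∈ R0 π := by
  obtain ⟨a, rfl⟩ := hπ v
  have key : ∀ a : MvPolynomial ν (RatFunc k), ∃ q : k[X], q ≠ 0 ∧ ∃ g, psi π g = q • π a := by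
    intro a
    induction a using MvPolynomial.induction_on with
    | C r =>
      obtain ⟨n, d, hd, hr⟩ := IsFractionRing.div_surjective (A := k[X]) r
      have hd0 : d ≠ 0 := nonZeroDivisors.ne_zero hd
      refine ⟨d, hd0, C n, ?_⟩
      have h0 : algebraMap k[X] (RatFunc k) d ≠ 0 := by
        rw [ne_eq, FaithfulSMul.algebraMap_eq_zero_iff]
        exact hd0
      rw [psi_apply, map_C, ← algebraMap_smul (RatFunc k) d, ← map_smul, smul_eq_C_mul, ← C_mul,
        ← hr, mul_div_cancel₀ _ h0]
    | add a b ha hb =>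
      obtain ⟨q, hq, g, hg⟩ := ha
      obtain ⟨q', hq', g', hg'⟩ := hb
      refine ⟨q * q', mul_ne_zero hq hq', C q' * g + C q * g', ?_⟩
      have hC : ∀ r : k[X], psi π (C r) = algebraMap k[X] E r := fun r => by
        rw [psi, aeval_C]
      rw [map_add, map_mul, map_mul, hg, hg', map_add, smul_add, hC, hC, ← Algebra.smul_def,
        ← Algebra.smul_def, smul_smul, smul_smul, mul_comm q' q]
    | mul_X a j ha =>
      obtain ⟨q, hq, g, hg⟩ := ha
      refine ⟨q, hq, g * X j, ?_⟩
      have hXj : psi π (X j) = π (X j) := by rw [psi, aeval_X]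
      rw [map_mul, hg, map_mul, smul_mul_assoc, hXj]
  obtain ⟨q, hq, g, hg⟩ := key a
  exact ⟨q, hq, (mem_R0 π).2 ⟨g, hg⟩⟩

/-- `∇^w 1` -/
noncomputable def nw (h : MvPolynomial ν (RatFunc k)) (c : RatFunc k) (w : List ν) :
    MvPolynomial ν (RatFunc k) := (w.map (nab h c)).prod 1

lemma nw_cons (h : MvPolynomial ν (RatFunc k)) (c : RatFunc k) (i : ν) (w : List ν) :
    nw h c (i :: w) = nab h c i (nw h c w) := by
  rw [nw, List.map_cons, List.prod_cons, Module.End.mul_apply, nw]

lemma nw_perm (h : MvPolynomial ν (RatFunc k)) (c : RatFunc k) {w w' : List ν} (hw : w.Perm w') :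
    nw h c w = nw h c w' := by
  unfold nw
  congr 1
  apply List.Perm.prod_eq' (hw.map _)
  apply List.pairwise_of_forall_mem_list
  intro a ha b hb
  obtain ⟨i, -, rfl⟩ := List.mem_map.1 ha
  obtain ⟨j, -, rfl⟩ := List.mem_map.1 hb
  exact nab_comm h c i j

lemma nw_replicate_append (h : MvPolynomial ν (RatFunc k)) (c : RatFunc k) (m : ℕ) (i : ν)
    (w : List ν) : nw h c (List.replicate m i ++ w) = (nab h c i ^ m) (nw h c w) := by
  unfold nw
  rw [List.map_append, List.prod_append, List.map_replicate, List.prod_replicate,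
    Module.End.mul_apply]

/-- the span of the `∇^w 1` -/
noncomputable def Wsp (h : MvPolynomial ν (RatFunc k)) (c : RatFunc k) : Submodule k[X] E :=
  Submodule.span k[X] (Set.range fun w => π (nw h c w))

/-- the lattice in `E` -/
noncomputable def Mlat (h : MvPolynomial ν (RatFunc k)) (c : RatFunc k) : Submodule k[X] E :=
  R0 π * Wsp π h c

lemma R0_le (h : MvPolynomial ν (RatFunc k)) (c : RatFunc k) : R0 π ≤ Mlat π h c := by
  intro e he
  have h1 : (1 : E) ∈ Wsp π h c := by
    refine Submodule.subset_span ⟨[], ?_⟩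
    simp [nw]
  have := Submodule.mul_mem_mul he h1
  rwa [mul_one] at this

lemma pi_pow_char [Fact p.Prime] [CharP k p] [Nontrivial E] (x : ν → k[X])
    (hX : ∀ j, π (X j) ^ p = algebraMap (RatFunc k) E (algebraMap k[X] (RatFunc k) (x j) ^ p))
    (g : MvPolynomial ν (RatFunc k)) :
    π g ^ p = algebraMap (RatFunc k) E
      ((eval (fun j => algebraMap k[X] (RatFunc k) (x j)) g) ^ p) := by
  have hK : CharP (RatFunc k) p :=
    charP_of_injective_algebraMap (FaithfulSMul.algebraMap_injective k[X] (RatFunc k)) p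
  have hE : CharP E p := charP_of_injective_algebraMap (algebraMap (RatFunc k) E).injective p
  induction g using MvPolynomial.induction_on with
  | C r =>
    rw [eval_C, ← MvPolynomial.algebraMap_eq, AlgHom.commutes, map_pow]
  | add a b ha hb =>
    rw [map_add, add_pow_char, ha, hb, map_add, add_pow_char, map_add]
  | mul_X a j ha =>
    rw [map_mul, mul_pow, ha, hX, map_mul, mul_pow, map_mul, eval_X]

lemma Wsp_fg [Fact p.Prime] [CharP k p] [Nontrivial E] (x η : ν → k[X])
    (hX : ∀ j, π (X j) ^ p = algebraMap (RatFunc k) E (algebraMap k[X] (RatFunc k) (x j) ^ p))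
    (h : MvPolynomial ν (RatFunc k))
    (hη : ∀ i, eval (fun j => algebraMap k[X] (RatFunc k) (x j)) (pderiv i h) =
      algebraMap k[X] (RatFunc k) (η i)) (c : k) : (Wsp π h (RatFunc.C c)).FG := by
  have hK : CharP (RatFunc k) p :=
    charP_of_injective_algebraMap (FaithfulSMul.algebraMap_injective k[X] (RatFunc k)) p
  have hp : 0 < p := (Fact.out : p.Prime).pos
  set N := Fintype.card ν * (p - 1) with hN
  have hle : Wsp π h (RatFunc.C c) =
      Submodule.span k[X] ((fun w => π (nw h (RatFunc.C c) w)) '' {w : List ν | w.length ≤ N}) := by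
    refine le_antisymm (Submodule.span_le.2 ?_) (Submodule.span_mono ?_)
    · rintro _ ⟨w, rfl⟩
      simp only [SetLike.mem_coe]
      induction hn : w.length using Nat.strong_induction_on generalizing w with
      | _ n ih =>
        subst hn
        by_cases hw : w.length ≤ N
        · exact Submodule.subset_span ⟨w, hw, rfl⟩
        · obtain ⟨i, w', hw'⟩ := exists_replicate_of_length w p hp (by omega)
          have hlen : w.length = p + w'.length := by
            have := hw'.length_eq
            simpa using this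
          have h1 := ih w'.length (by omega) w' rfl
          have h2 : π (nw h (RatFunc.C c) w) =
              (Polynomial.C c ^ p * η i ^ p) • π (nw h (RatFunc.C c) w') := by
            rw [nw_perm h _ hw', nw_replicate_append, nab_pow p, map_mul, map_pow, pi_pow_char π p x hX,
              map_mul, eval_C, hη, ← algebraMap_smul (RatFunc k), Algebra.smul_def]
            congr 2
            rw [map_mul, map_pow, map_pow, mul_pow, RatFunc.algebraMap_C]
          rw [h2]
          exact Submodule.smul_mem _ _ h1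
    · rintro _ ⟨w, -, rfl⟩
      exact ⟨w, rfl⟩
  rw [hle]
  exact Submodule.fg_span ((List.finite_length_le ν N).image _)

lemma Mlat_fg [Fact p.Prime] [CharP k p] [Nontrivial E] (x η : ν → k[X])
    (hX : ∀ j, π (X j) ^ p = algebraMap (RatFunc k) E (algebraMap k[X] (RatFunc k) (x j) ^ p))
    (h : MvPolynomial ν (RatFunc k))
    (hη : ∀ i, eval (fun j => algebraMap k[X] (RatFunc k) (x j)) (pderiv i h) =
      algebraMap k[X] (RatFunc k) (η i)) (c : k) : (Mlat π h (RatFunc.C c)).FG :=
  (R0_fg π p x hX).mul (Wsp_fg π p x η hX h hη c)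

lemma psi_mul_mem (h : MvPolynomial ν (RatFunc k)) (c : RatFunc k) (q : MvPolynomial ν k[X]) {e : E}
    (he : e ∈ Mlat π h c) : psi π q * e ∈ Mlat π h c := by
  unfold Mlat at he ⊢
  refine Submodule.mul_induction_on he (fun m hm n hn => ?_) (fun a b ha hb => ?_)
  · rw [← mul_assoc]
    refine Submodule.mul_mem_mul ?_ hn
    obtain ⟨q', rfl⟩ := (mem_R0 π).1 hm
    exact (mem_R0 π).2 ⟨q * q', map_mul _ _ _⟩
  · rw [mul_add]
    exact Submodule.add_mem _ ha hb

/-- `π a ∈ M` implies `π (∇_i a) ∈ M` -/
lemma nab_mem (hπ : Function.Surjective π) (hd : ∀ i a, π a = 0 → π (pderiv i a) = 0)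
    (h : MvPolynomial ν (RatFunc k)) (c : RatFunc k) (i : ν) (a : MvPolynomial ν (RatFunc k))
    (ha : π a ∈ Mlat π h c) : π (nab h c i a) ∈ Mlat π h c := by
  have hP : ∀ a, π a = 0 → π (nab h c i a) = 0 := by
    intro a ha
    rw [nab_apply, map_add, hd i a ha, map_mul, ha, mul_zero, add_zero]
  have hW : ∀ e ∈ Wsp π h c, opE π hπ _ hP e ∈ Wsp π h c := by
    intro e he
    induction he using Submodule.span_induction with
    | mem e he =>
      obtain ⟨w, rfl⟩ := he
      rw [opE_apply]
      exact Submodule.subset_span ⟨i :: w, by simp only [nw_cons]⟩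
    | zero => rw [map_zero]; exact zero_mem _
    | add a b _ _ ha hb => rw [map_add]; exact add_mem ha hb
    | smul r a _ ha =>
      rw [← algebraMap_smul (RatFunc k) r a, map_smul, algebraMap_smul]
      exact Submodule.smul_mem _ _ ha
  have hM : ∀ e ∈ Mlat π h c, opE π hπ _ hP e ∈ Mlat π h c := by
    intro e he
    unfold Mlat at he
    refine Submodule.mul_induction_on he (fun m hm n hn => ?_) (fun a b ha hb => ?_)
    · obtain ⟨q, rfl⟩ := (mem_R0 π).1 hm
      obtain ⟨b, rfl⟩ := hπ n
      have h1 : opE π hπ _ hP (psi π q * π b) = psi π (pderiv i q) * π b +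
          psi π q * opE π hπ _ hP (π b) := by
        rw [psi_apply, psi_apply, ← map_mul, opE_apply, opE_apply, nab_apply, nab_apply,
          Derivation.leibniz, pderiv_map]
        simp only [map_add, map_mul, smul_eq_mul]
        ring
      rw [h1]
      refine Submodule.add_mem _ ?_ ?_
      · exact Submodule.mul_mem_mul ((mem_R0 π).2 ⟨_, rfl⟩) hn
      · exact Submodule.mul_mem_mul ((mem_R0 π).2 ⟨_, rfl⟩) (hW _ hn)
    · rw [map_add]
      exact Submodule.add_mem _ ha hb
  have := hM _ ha
  rwa [opE_apply] at this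

lemma evN_mem (hπ : Function.Surjective π) (hd : ∀ i a, π a = 0 → π (pderiv i a) = 0)
    (h : MvPolynomial ν (RatFunc k)) (c : RatFunc k) (e : WExp ν k) (a : MvPolynomial ν (RatFunc k))
    (ha : π a ∈ Mlat π h c) :
    π (evN h c (WExp.bc (RatFunc.C : k →+* RatFunc k) e) a) ∈ Mlat π h c := by
  induction e generalizing a with
  | mul q =>
    have h1 : π (evN h c (WExp.bc (RatFunc.C : k →+* RatFunc k) (.mul q)) a) =
        psi π (map Polynomial.C q) * π a := by
      rw [psi_apply, map_map]
      change π (map RatFunc.C q * a) = _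
      rw [map_mul]
      congr 3
    rw [h1]
    exact psi_mul_mem π h c _ ha
  | d i => exact nab_mem π hπ hd h c i a ha
  | add x y ihx ihy =>
    change π (evN h c (WExp.bc _ x) a + evN h c (WExp.bc _ y) a) ∈ _
    rw [map_add]
    exact add_mem (ihx a ha) (ihy a ha)
  | comp x y ihx ihy => exact ihx _ (ihy a ha)

lemma evN_zero (hd : ∀ i a, π a = 0 → π (pderiv i a) = 0)
    (h : MvPolynomial ν (RatFunc k)) (c : RatFunc k) (e : WExp ν (RatFunc k))
    (a : MvPolynomial ν (RatFunc k)) (ha : π a = 0) : π (evN h c e a) = 0 := by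
  induction e generalizing a with
  | mul q =>
    change π (q * a) = 0
    rw [map_mul, ha, mul_zero]
  | d i =>
    change π (nab h c i a) = 0
    rw [nab_apply, map_add, hd i a ha, map_mul, ha, mul_zero, add_zero]
  | add x y ihx ihy =>
    change π (evN h c x a + evN h c y a) = 0
    rw [map_add, ihx a ha, ihy a ha, add_zero]
  | comp x y ihx ihy => exact ihx _ (ihy a ha)

lemma evT_zero (hd : ∀ i a, π a = 0 → π (pderiv i a) = 0)
    (h : MvPolynomial ν (RatFunc k)) (e : WExp ν (RatFunc k))
    (s : ℕ → MvPolynomial ν (RatFunc k)) (hs : ∀ l, π (s l) = 0) (l : ℕ) :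
    π (WExp.evT h e s l) = 0 := by
  induction e generalizing s l with
  | mul q =>
    change π (q * s l) = 0
    rw [map_mul, hs, mul_zero]
  | d i =>
    change π (H50.DO.T h i s l) = 0
    cases l with
    | zero => rw [T_zero]; exact hd i _ (hs 0)
    | succ l => rw [T_succ, map_add, hd i _ (hs _), map_mul, hs, mul_zero, add_zero]
  | add x y ihx ihy =>
    change π (WExp.evT h x s l + WExp.evT h y s l) = 0
    rw [map_add, ihx s hs, ihy s hs, add_zero]
  | comp x y ihx ihy => exact ihx _ (fun l => ihy s hs l) l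

end lat

end Pool.Agent.H97.KL
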